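import Mathlib
import Pool.Agent.H88.Tq4
import Pool.Agent.H88.FpDefs

open Pool.Agent.H88.Fp

theorem Pool.Agent.Results.MP_a71740_an.Yes.result (p : ℝ) (hp : 0 < p) (hp1 : p < 1)
    (o : Set.Icc (0 : ℝ) 1) (X : Type) [AddCommGroup X] [Module ℝ X] (ν : X → ℝ)
    (δ : Set.Icc (0 : ℝ) 1 → X) (h : IsFree ℝ p o ν δ) : SchurP ℝ p ν := by
  letI := nacg h.banach hp
  obtain ⟨C, m, hT⟩ := (h.fr hp hp1.le fun _ => rfl).tree hp1
  exact schurP_of h.banach (fun _ => rfl) hT
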